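import Mathlib
import Pool.Agent.H44.LA.Comp
import Pool.Agent.H44.LA.Bin
import Pool.Agent.H44.LA.Quad3

set_option autoImplicit false

/-!
# L-atoms on `ℂⁿ`

The definitions `LProp`, `LPair`, `LAtom`, `IsAut`, `FirstComp` are in `Pool.Agent.H44.LA.Basic`.
They are those of the question.
-/

open Pool.Agent.H44.LA

namespace Pool.Agent.Results.MP_cc4673_an.AtomFamilies

/-- 1. Let `d ≥ 1`, let `Q ≠ 0` and `R` be entire functions of `m` variables and `w = F(z)` the
coordinates given by an automorphism `F` of `ℂ^(m+1)`. The function `w₀ᵈ Q(w₁, …) + R(w₁, …)` is an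
L-atom on `ℂ^(m+1)` if and only if it is not the case that `R` is constant and `Q` is the `k`-th power
of an entire function for a divisor `k ≥ 2` of `d`.

2. Let `A`, `B`, `C` be entire functions of one variable, `A`, `B` not both zero, `n ≥ 2`, and let
`w = F(z)` be the coordinates given by an automorphism `F` of `ℂⁿ`. Then
`A(w₁) w₀² + B(w₁) w₀ + C(w₁)` is an L-atom on `ℂⁿ` if and only if it is not of the form
`κ + (h(w₁) w₀ + k(w₁))²` with a constant `κ` and entire `h`, `k`.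

3. If `R = r` is constant, the function of 1. is the first component of an automorphism if and only if
`d = 1` and `Q` has no zeros. For entire `q ≠ 0` and `r` of one variable and every `n ≥ 2`, the L-atom
`w₀ q(w₁) + r(w₁)` on `ℂⁿ` is the first component of an automorphism if and only if `q` has no zeros.

4. In every dimension `n ≥ 1` first components of automorphisms are L-atoms.

5. For every `n ≥ 2` the equivalence of the question is false. -/
theorem result :
    (∀ (m d : ℕ) (Q R : (Fin m → ℂ) → ℂ) (F : (Fin (m + 1) → ℂ) → (Fin (m + 1) → ℂ)),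
      d ≠ 0 → Differentiable ℂ Q → Differentiable ℂ R → (∃ y, Q y ≠ 0) → IsAut F →
      (LAtom (fun z => F z 0 ^ d * Q (fun i => F z i.succ) + R (fun i => F z i.succ)) ↔
        ¬ ((∀ a b, R a = R b) ∧ ∃ k, 2 ≤ k ∧ k ∣ d ∧
          ∃ q : (Fin m → ℂ) → ℂ, Differentiable ℂ q ∧ ∀ y, Q y = q y ^ k))) ∧
    (∀ (m : ℕ) (A B C : ℂ → ℂ) (F : (Fin (m + 2) → ℂ) → (Fin (m + 2) → ℂ)),
      Differentiable ℂ A → Differentiable ℂ B → Differentiable ℂ C →
      (∃ t, A t ≠ 0 ∨ B t ≠ 0) → IsAut F →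
      (LAtom (fun z => A (F z 1) * F z 0 ^ 2 + B (F z 1) * F z 0 + C (F z 1)) ↔
        ¬ ∃ (κ : ℂ) (h k : ℂ → ℂ), Differentiable ℂ h ∧ Differentiable ℂ k ∧
          ∀ x y, A y * x ^ 2 + B y * x + C y = κ + (h y * x + k y) ^ 2)) ∧
    ((∀ (m d : ℕ) (Q : (Fin m → ℂ) → ℂ) (r : ℂ) (F : (Fin (m + 1) → ℂ) → (Fin (m + 1) → ℂ)),
      d ≠ 0 → Differentiable ℂ Q → IsAut F →
      (FirstComp (fun z => F z 0 ^ d * Q (fun i => F z i.succ) + r) ↔ d = 1 ∧ ∀ y, Q y ≠ 0)) ∧
    (∀ (m : ℕ) (q r : ℂ → ℂ) (F : (Fin (m + 2) → ℂ) → (Fin (m + 2) → ℂ)),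
      Differentiable ℂ q → Differentiable ℂ r → (∃ t, q t ≠ 0) → IsAut F →
      (FirstComp (fun z => F z 0 * q (F z 1) + r (F z 1)) ↔ ∀ t, q t ≠ 0))) ∧
    (∀ (m : ℕ) (f : (Fin (m + 1) → ℂ) → ℂ), FirstComp f → LAtom f) ∧
    (∀ m : ℕ, ¬ ∀ f : (Fin (m + 2) → ℂ) → ℂ, LAtom f ↔ FirstComp f) := by
  have h1 : ∀ (m d : ℕ) (Q R : (Fin m → ℂ) → ℂ) (F : (Fin (m + 1) → ℂ) → (Fin (m + 1) → ℂ)),
      d ≠ 0 → Differentiable ℂ Q → Differentiable ℂ R → (∃ y, Q y ≠ 0) → IsAut F →
      (LAtom (fun z => F z 0 ^ d * Q (fun i => F z i.succ) + R (fun i => F z i.succ)) ↔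
        ¬ ((∀ a b, R a = R b) ∧ ∃ k, 2 ≤ k ∧ k ∣ d ∧
          ∃ q : (Fin m → ℂ) → ℂ, Differentiable ℂ q ∧ ∀ y, Q y = q y ^ k)) := by
    intro m d Q R F hd hQ hR ⟨y, hy⟩ hF
    exact (atom_comp_iff (α := pw d Q R) hF).trans (bin_atom_iff hd hQ hR hy)
  have h2 : ∀ (m : ℕ) (q r : ℂ → ℂ), Differentiable ℂ q → Differentiable ℂ r →
      (∃ t, q t ≠ 0) → LAtom (fun z : Fin (m + 2) → ℂ => z 0 * q (z 1) + r (z 1)) ∧
      (FirstComp (fun z : Fin (m + 2) → ℂ => z 0 * q (z 1) + r (z 1)) ↔ ∀ t, q t ≠ 0) := by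
    intro m q r hq hr ⟨s, hs⟩
    have e := aff1_eq (m := m) q r
    have d0 : Differentiable ℂ (fun y : Fin (m + 1) → ℂ => y 0) := differentiable_apply 0
    change LAtom (aff1 q r) ∧ (FirstComp (aff1 q r) ↔ _)
    refine ⟨?_, ?_, ?_⟩
    · rw [e]
      exact aff_atom (y₀ := fun _ => s) (hq.comp d0) (hr.comp d0) hs
    · intro hf t ht
      exact not_first hq hr hs ht hf
    · intro h0
      rw [e]
      exact is_first (hq.comp d0) (hr.comp d0) (fun y => h0 _)
  refine ⟨h1, ?_, ⟨fun m d Q r F hd hQ hF =>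
    (first_comp_iff (α := pw d Q (fun _ => r)) hF).trans (const_first_iff hd hQ r),
    fun m q r F hq hr h hF =>
      (first_comp_iff (α := fun z : Fin (m + 2) → ℂ => z 0 * q (z 1) + r (z 1)) hF).trans
        (h2 m q r hq hr h).2⟩, ?_, ?_⟩
  · intro m A B C F hA hB hC hne hF
    refine (atom_comp_iff (α := fun z : Fin (m + 2) → ℂ =>
      A (z 1) * z 0 ^ 2 + B (z 1) * z 0 + C (z 1)) hF).trans ?_
    -- the form of a square
    have hform : ∀ (κ : ℂ) (h k : ℂ → ℂ),
        (∀ x y, A y * x ^ 2 + B y * x + C y = κ + (h y * x + k y) ^ 2) ↔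
        (∀ y, A y = h y ^ 2) ∧ (∀ y, B y = 2 * h y * k y) ∧ (∀ y, C y = k y ^ 2 + κ) := by
      intro κ h k
      constructor
      · intro hx
        have a0 : ∀ y, C y = k y ^ 2 + κ := by
          intro y
          have := hx 0 y
          linear_combination this
        have a1 : ∀ y, A y = h y ^ 2 := by
          intro y
          have e1 := hx 1 y
          have e2 := hx (-1) y
          have e0 := hx 0 y
          linear_combination (1 / 2 : ℂ) * e1 + (1 / 2 : ℂ) * e2 - e0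
        refine ⟨a1, ?_, a0⟩
        intro y
        have e1 := hx 1 y
        have e2 := hx (-1) y
        linear_combination (1 / 2 : ℂ) * e1 - (1 / 2 : ℂ) * e2
      · rintro ⟨a, b, c⟩ x y
        rw [a, b, c]
        ring
    by_cases hA0 : ∃ t, A t ≠ 0
    · obtain ⟨y₀, hy₀⟩ := hA0
      have hq := quad_atom_iff (m := m) hA hB hC hy₀
      have e : (fun z : Fin (m + 2) → ℂ => A (z 1) * z 0 ^ 2 + B (z 1) * z 0 + C (z 1)) =
          quadn A B C := rfl
      rw [e, hq, not_iff_not]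
      constructor
      · rintro ⟨κ, h, k, hh, hk, a⟩
        exact ⟨κ, h, k, hh, hk, (hform κ h k).2 a⟩
      · rintro ⟨κ, h, k, hh, hk, a⟩
        exact ⟨κ, h, k, hh, hk, (hform κ h k).1 a⟩
    · push Not at hA0
      have hB0 : ∃ t, B t ≠ 0 := by
        obtain ⟨t, h | h⟩ := hne
        · exact absurd (hA0 t) h
        · exact ⟨t, h⟩
      have hat := (h2 m B C hB hC hB0).1
      have e : (fun z : Fin (m + 2) → ℂ => A (z 1) * z 0 ^ 2 + B (z 1) * z 0 + C (z 1)) =
          fun z : Fin (m + 2) → ℂ => z 0 * B (z 1) + C (z 1) := by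
        funext z
        rw [hA0]
        ring
      rw [e]
      refine ⟨?_, fun _ => hat⟩
      rintro - ⟨κ, h, k, hh, hk, a⟩
      obtain ⟨a1, a2, -⟩ := (hform κ h k).1 a
      obtain ⟨t, ht⟩ := hB0
      apply ht
      have : h t = 0 := by
        have := a1 t
        rw [hA0] at this
        exact pow_eq_zero_iff two_ne_zero |>.1 this.symm
      rw [a2, this]
      ring
  · intro m f ⟨F, hF, hF0⟩
    have := (h1 m 1 (fun _ => 1) (fun _ => 0) F one_ne_zero (differentiable_const _)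
      (differentiable_const _) ⟨0, one_ne_zero⟩ hF).2 (by
        rintro ⟨-, k, hk, hk1, -⟩
        have := Nat.dvd_one.1 hk1
        omega)
    have e : (fun z => F z 0 ^ 1 * (1 : ℂ) + 0) = f := funext fun z => by simp [hF0]
    rwa [e] at this
  · intro m hcon
    obtain ⟨ha, hb⟩ := h2 m (fun t => t) (fun _ => 0) differentiable_id (differentiable_const _)
      ⟨1, one_ne_zero⟩
    exact hb.1 ((hcon _).1 ha) 0 rfl

end Pool.Agent.Results.MP_cc4673_an.AtomFamilies
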